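import Pool.Agent.H140.RS.Stab

open Finset Pool.Agent.H140.RS

namespace Pool.Agent.Results.MP_84eedd_co.RunSorted

/-- The multivariate descent polynomial `Q_n = ∑_{π ∈ RSP(n)} x^{DES(π)}`. -/
noncomputable def Q (n : ℕ) : MvPolynomial ℕ ℝ := ∑ w ∈ RSP n, ∏ j ∈ DES w, MvPolynomial.X j

/-- The univariate polynomial `Q_n^λ(t) = Q_n(λ₁ t, …, λ_n t)`. -/
noncomputable def Qlam (lam : ℕ → ℝ) (n : ℕ) : Polynomial ℝ :=
  MvPolynomial.aeval (fun j => Polynomial.C (lam j) * Polynomial.X) (Q n)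

/-- The roots of `f`, with multiplicity, in weakly decreasing order. -/
noncomputable def rootList (f : Polynomial ℝ) : List ℝ := f.roots.sort (· ≥ ·)

/-- `f ⪯ g` : writing `f₁ ≥ f₂ ≥ ⋯` and `g₁ ≥ g₂ ≥ ⋯` for the roots,
`⋯ ≤ f₃ ≤ g₃ ≤ f₂ ≤ g₂ ≤ f₁ ≤ g₁ ≤ 0`, as far as the roots exist. -/
def Interlaces (f g : Polynomial ℝ) : Prop :=
  (∀ r ∈ rootList g, r ≤ 0) ∧
  (∀ (i : ℕ) (r s : ℝ), (rootList f)[i]? = some r → (rootList g)[i]? = some s → r ≤ s) ∧
  (∀ (i : ℕ) (r s : ℝ), (rootList g)[i + 1]? = some r → (rootList f)[i]? = some s → r ≤ s)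

theorem Qlam_eq (lam : ℕ → ℝ) (n : ℕ) :
    Qlam lam (n + 1) = W (fun j => Polynomial.C (lam j) * Polynomial.X) n 0 1 := by
  rw [← sum_RSP]
  simp [Qlam, Q, map_sum, map_prod]

theorem aeval_Qlam (lam : ℕ → ℝ) (n : ℕ) (z : ℂ) :
    Polynomial.aeval z (Qlam lam (n + 1)) = W (fun j => (lam j : ℂ) * z) n 0 1 := by
  rw [← sum_RSP]
  simp [Qlam, Q, map_sum, map_prod]

theorem real_roots (n : ℕ) (lam : ℕ → ℝ) (hl : ∀ k, 0 < lam k) (z : ℂ)
    (hz : Polynomial.aeval z (Qlam lam (n + 1)) = 0) : z.im = 0 := by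
  have key : ∀ y : ℂ, Polynomial.aeval y (Qlam lam (n + 1)) = 0 → ¬ 0 < y.im := by
    intro y hy hpos
    rw [aeval_Qlam] at hy
    exact (stab lam hl y hpos n 1).2.2 hy
  have h1 := key z hz
  have h2 := key (starRingEnd ℂ z) (by
    rw [Polynomial.aeval_conj, hz, map_zero])
  rw [Complex.conj_im] at h2
  push Not at h1 h2
  linarith

theorem quad_roots (a b c : ℝ) (ha : 0 < a) (hD : 0 ≤ b ^ 2 - 4 * a * c) :
    Multiset.card (Polynomial.C a * Polynomial.X ^ 2 + Polynomial.C b * Polynomial.X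
      + Polynomial.C c).roots = 2 ∧
    (Polynomial.C a * Polynomial.X ^ 2 + Polynomial.C b * Polynomial.X
      + Polynomial.C c).roots.sum = - b / a := by
  set s := Real.sqrt (b ^ 2 - 4 * a * c) with hs
  have hss : s ^ 2 = b ^ 2 - 4 * a * c := Real.sq_sqrt hD
  have hfac : Polynomial.C a * Polynomial.X ^ 2 + Polynomial.C b * Polynomial.X + Polynomial.C c
      = Polynomial.C a * ((Polynomial.X - Polynomial.C ((-b + s) / (2 * a)))
        * (Polynomial.X - Polynomial.C ((-b - s) / (2 * a)))) := by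
    have h1 : b = - (a * ((-b + s) / (2 * a) + (-b - s) / (2 * a))) := by field_simp; ring
    have h2 : c = a * (((-b + s) / (2 * a)) * ((-b - s) / (2 * a))) := by
      field_simp
      nlinarith [hss]
    set r1 := (-b + s) / (2 * a)
    set r2 := (-b - s) / (2 * a)
    rw [h2]
    conv_lhs => rw [h1]
    simp only [map_neg, map_mul, map_add]
    ring
  have hne : (Polynomial.X - Polynomial.C ((-b + s) / (2 * a)))
        * (Polynomial.X - Polynomial.C ((-b - s) / (2 * a))) ≠ 0 :=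
    mul_ne_zero (Polynomial.X_sub_C_ne_zero _) (Polynomial.X_sub_C_ne_zero _)
  rw [hfac, Polynomial.roots_C_mul _ ha.ne', Polynomial.roots_mul hne, Polynomial.roots_X_sub_C,
    Polynomial.roots_X_sub_C]
  constructor
  · simp
  · simp
    field_simp
    ring

/-- Q1 holds and Q2 fails. -/
theorem result :
    (∀ n : ℕ, 1 ≤ n → ∀ lam : ℕ → ℝ, (∀ j, 0 < lam j) →
      ∀ z : ℂ, Polynomial.aeval z (Qlam lam n) = 0 → z.im = 0) ∧
    ¬ (∀ lam : ℕ → ℝ, (∀ j, 0 < lam j) → ∀ n : ℕ, 1 < n →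
      Interlaces (Qlam lam (n - 1)) (Qlam lam n)) := by
  constructor
  · intro n hn lam hl z hz
    obtain ⟨m, rfl⟩ : ∃ m, n = m + 1 := ⟨n - 1, by omega⟩
    exact real_roots m lam hl z hz
  · intro H
    have h := H (fun j => if j = 4 then 24 else 1) (by intro j; split_ifs <;> norm_num)
      6 (by norm_num)
    have hC : ∀ m : ℕ, ∀ h : m.AtLeastTwo, (Polynomial.C (@OfNat.ofNat ℝ m _) : Polynomial ℝ)
        = (@OfNat.ofNat (Polynomial ℝ) m _) := by
      intro m h; exact map_ofNat Polynomial.C m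
    have h5 : Qlam (fun j => if j = 4 then 24 else 1) (6 - 1) =
        Polynomial.C 72 * Polynomial.X ^ 2 + Polynomial.C 80 * Polynomial.X + Polynomial.C 1 := by
      rw [show 6 - 1 = 4 + 1 by norm_num, Qlam_eq]
      simp [W, Finset.sum_range_succ, Finset.sum_Ico_succ_top, hC]
      ring
    have h6 : Qlam (fun j => if j = 4 then 24 else 1) 6 =
        Polynomial.C 209 * Polynomial.X ^ 2 + Polynomial.C 233 * Polynomial.X + Polynomial.C 1 := by
      rw [show 6 = 5 + 1 by norm_num, Qlam_eq]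
      simp [W, Finset.sum_range_succ, Finset.sum_Ico_succ_top, hC]
      ring
    rw [h5, h6] at h
    obtain ⟨_, h2, _⟩ := h
    obtain ⟨c5, s5⟩ := quad_roots 72 80 1 (by norm_num) (by norm_num)
    obtain ⟨c6, s6⟩ := quad_roots 209 233 1 (by norm_num) (by norm_num)
    set f : Polynomial ℝ := Polynomial.C 72 * Polynomial.X ^ 2 + Polynomial.C 80 * Polynomial.X
      + Polynomial.C 1
    set g : Polynomial ℝ := Polynomial.C 209 * Polynomial.X ^ 2 + Polynomial.C 233 * Polynomial.X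
      + Polynomial.C 1
    have lf : (rootList f).length = 2 := by rw [rootList, Multiset.length_sort, c5]
    have lg : (rootList g).length = 2 := by rw [rootList, Multiset.length_sort, c6]
    have sf : (rootList f).sum = -80 / 72 := by
      rw [← s5, rootList, ← Multiset.sum_coe, Multiset.sort_eq]
    have sg : (rootList g).sum = -233 / 209 := by
      rw [← s6, rootList, ← Multiset.sum_coe, Multiset.sort_eq]
    obtain ⟨x, y, hxy⟩ := List.length_eq_two.mp lf
    obtain ⟨u, v, huv⟩ := List.length_eq_two.mp lg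
    rw [hxy] at sf h2
    rw [huv] at sg h2
    have e1 := h2 0 x u (by simp) (by simp)
    have e2 := h2 1 y v (by simp) (by simp)
    simp at sf sg
    norm_num at sf sg
    linarith

end Pool.Agent.Results.MP_84eedd_co.RunSorted
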